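import Pool.Agent.Lib.MP_d81877_alG.NonCross

/-!
The near symbols: `qs S B m T = 1` when `T` has `m` letters in `S` and all its other letters in `B`.
Its value on the matchings whose pairs are divided by `B`, and the number of its sets.
-/

namespace D81877G

open D81877C Polynomial

set_option linter.unusedSectionVars false

variable {α : Type*} [LinearOrder α] {K : Type*} [CommRing K]

/-- The near symbol. -/
def qs (S B : Finset α) (m : ℕ) (T : Finset α) : K :=
  if (T ∩ S).card = m ∧ T \ S ⊆ B then 1 else 0

/-- Are all letters of `S` in pairs of `l` having only one letter in `S`? -/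
def full (K : Type*) [CommRing K] : Finset α → List (α × α) → K
  | S, [] => if S = ∅ then 1 else 0
  | S, p :: l => if p.1 ∈ S ∧ p.2 ∈ S then 0 else full K ((S.erase p.1).erase p.2) l

/-- Has no pair of `l` both letters in `S`, and is at most one letter of `S` free? -/
def val (K : Type*) [CommRing K] : Finset α → List (α × α) → K
  | S, [] => if S.card ≤ 1 then 1 else 0
  | S, p :: l => if p.1 ∈ S ∧ p.2 ∈ S then 0 else val K ((S.erase p.1).erase p.2) l

theorem full_empty (l : List (α × α)) : full K ∅ l = 1 := by
  induction l with
  | nil => simp [full]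
  | cons p l ih => simp [full, ih]

theorem val_empty (l : List (α × α)) : val K ∅ l = 1 := by
  induction l with
  | nil => simp [val]
  | cons p l ih => simp [val, ih]

/-- The weight of a letter. -/
noncomputable def wt (K : Type*) [CommRing K] (S B : Finset α) (x : α) : K[X] :=
  if x ∈ S then X else if x ∈ B then 1 else 0

/-- The product of the weights of the pairs. -/
noncomputable def P (K : Type*) [CommRing K] (S B : Finset α) (l : List (α × α)) : K[X] :=
  (l.map fun p => wt K S B p.1 + wt K S B p.2).prod

theorem P_cons (S B : Finset α) (p : α × α) (l : List (α × α)) :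
    P K S B (p :: l) = (wt K S B p.1 + wt K S B p.2) * P K S B l := by simp [P]

theorem P_erase {S B : Finset α} {x : α} {l : List (α × α)} (hx : x ∉ letters l) :
    P K (S.erase x) B l = P K S B l := by
  unfold P
  congr 1
  refine List.map_congr_left fun p hp => ?_
  have h1 : p.1 ≠ x := by
    rintro rfl
    exact hx (by unfold letters; exact List.mem_flatMap.2 ⟨p, hp, by simp⟩)
  have h2 : p.2 ≠ x := by
    rintro rfl
    exact hx (by unfold letters; exact List.mem_flatMap.2 ⟨p, hp, by simp⟩)
  simp [wt, h1, h2]

theorem prod_wt (S B : Finset α) (T : Finset α) :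
    ∏ x ∈ T, wt K S B x = if T \ S ⊆ B then X ^ (T ∩ S).card else 0 := by
  induction T using Finset.induction_on with
  | empty => simp
  | insert x T hx ih =>
    rw [Finset.prod_insert hx, ih]
    by_cases h : x ∈ S
    · have e1 : insert x T \ S = T \ S := Finset.insert_sdiff_of_mem _ h
      have e2 : (insert x T ∩ S).card = (T ∩ S).card + 1 := by
        rw [Finset.insert_inter_of_mem h, Finset.card_insert_of_notMem (by simp [hx])]
      rw [e1, e2]
      simp only [wt, h, if_true]
      split_ifs
      · ring
      · simp
    · have e1 : insert x T \ S = insert x (T \ S) := Finset.insert_sdiff_of_notMem _ h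
      have e2 : insert x T ∩ S = T ∩ S := Finset.insert_inter_of_notMem h
      rw [e1, e2]
      simp only [wt, h, if_false, Finset.insert_subset_iff]
      by_cases h1 : x ∈ B <;> by_cases h2 : T \ S ⊆ B <;> simp [h1, h2]

theorem qs_eq (S B : Finset α) (m : ℕ) (T : Finset α) :
    qs S B m T = (∏ x ∈ T, wt K S B x).coeff m := by
  rw [prod_wt, qs]
  by_cases h : T \ S ⊆ B
  · simp only [h, and_true, if_true, coeff_X_pow]
    congr 1
    exact propext eq_comm
  · simp [h]

theorem tsum_qs (S B : Finset α) (m : ℕ) (l : List (α × α)) :
    ∀ T : Finset α, (letters l).Nodup → (∀ x ∈ letters l, x ∉ T) →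
      tsum (qs S B m) l T = ((∏ x ∈ T, wt K S B x) * P K S B l).coeff m := by
  induction l with
  | nil => intro T _ _; simp [P, qs_eq]
  | cons p l ih =>
    intro T hnd hT
    simp only [letters_cons, List.nodup_cons, List.mem_cons, not_or] at hnd
    obtain ⟨⟨h1, h2⟩, h3, h4⟩ := hnd
    have n1 : p.1 ∉ T := hT _ (by simp)
    have n2 : p.2 ∉ T := hT _ (by simp)
    rw [tsum_cons, ih _ h4 ?_, ih _ h4 ?_, Finset.prod_insert n1, Finset.prod_insert n2, P_cons,
      ← coeff_add]
    · congr 1; ring
    · intro x hx hmem
      rcases Finset.mem_insert.1 hmem with rfl | h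
      · exact h3 hx
      · exact hT x (by simp [hx]) h
    · intro x hx hmem
      rcases Finset.mem_insert.1 hmem with rfl | h
      · exact h2 hx
      · exact hT x (by simp [hx]) h

section char_two

variable [CharP K 2]

theorem P_values (B : Finset α) (l : List (α × α)) :
    ∀ S : Finset α, (letters l).Nodup → (∀ p ∈ l, (p.1 ∈ B ↔ p.2 ∉ B)) →
      (∀ k, S.card < k → (P K S B l).coeff k = 0) ∧
      (P K S B l).coeff S.card = full K S l ∧
      (∀ m, S.card = m + 1 → (P K S B l).coeff m =
        val K S l + (1 + ((S \ B).card : K)) * full K S l) := by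
  induction l with
  | nil =>
    intro S _ _
    refine ⟨fun k hk => ?_, ?_, fun m hm => ?_⟩
    · simp only [P, List.map_nil, List.prod_nil, coeff_one]
      rw [if_neg (by omega)]
    · simp [P, full, coeff_one, Finset.card_eq_zero]
    · have hne : S ≠ ∅ := by rintro rfl; simp at hm
      simp only [P, List.map_nil, List.prod_nil, coeff_one, full, val, hne, if_false, mul_zero,
        add_zero, hm]
      congr 1
      exact propext ⟨fun h => by omega, fun h => by omega⟩
  | cons p l ih =>
    intro S hnd hp
    obtain ⟨x, y⟩ := p
    simp only [letters_cons, List.nodup_cons, List.mem_cons, not_or] at hnd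
    obtain ⟨⟨hxy, hxl⟩, hyl, hnl⟩ := hnd
    have hpl : ∀ p ∈ l, (p.1 ∈ B ↔ p.2 ∉ B) := fun p h => hp p (List.mem_cons_of_mem _ h)
    have hB : x ∈ B ↔ y ∉ B := hp (x, y) (List.mem_cons_self ..)
    by_cases hboth : x ∈ S ∧ y ∈ S
    · have e : P K S B ((x, y) :: l) = 0 := by
        rw [P_cons]
        have : (X : K[X]) + X = 0 := CharTwo.add_self_eq_zero X
        simp [wt, hboth.1, hboth.2, this]
      refine ⟨fun k _ => by rw [e]; simp, ?_, fun m _ => ?_⟩
      · rw [e]; simp [full, hboth.1, hboth.2]
      · rw [e]; simp [full, val, hboth.1, hboth.2]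
    · by_cases hnone : x ∉ S ∧ y ∉ S
      · have e : P K S B ((x, y) :: l) = P K S B l := by
          rw [P_cons]
          by_cases h : x ∈ B
          · simp [wt, hnone.1, hnone.2, h, hB.1 h]
          · have hy : y ∈ B := by by_contra hy; exact h (hB.2 hy)
            simp [wt, hnone.1, hnone.2, h, hy]
        have e1 : (S.erase x).erase y = S := by
          rw [Finset.erase_eq_of_notMem hnone.1, Finset.erase_eq_of_notMem hnone.2]
        have := ih S hnl hpl
        simp only [e, full, val, hboth, if_false, e1]
        exact this
      · -- exactly one letter in S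
        have key : ∀ x y : α, x ∈ S → y ∉ S → (x ∈ B ↔ y ∉ B) → x ∉ letters l →
            ∀ Q : K[X], Q = (wt K S B x + wt K S B y) * P K S B l →
            (∀ k, S.card < k → Q.coeff k = 0) ∧
            Q.coeff S.card = full K (S.erase x) l ∧
            (∀ m, S.card = m + 1 → Q.coeff m =
              val K (S.erase x) l + (1 + ((S \ B).card : K)) * full K (S.erase x) l) := by
          clear hxy hxl hyl hB hboth hnone hp x y
          intro x y hx hy hB hxl Q hQ
          obtain ⟨i1, i2, i3⟩ := ih (S.erase x) hnl hpl
          rw [P_erase hxl] at i1 i2 i3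
          have hc : S.card = (S.erase x).card + 1 := (Finset.card_erase_add_one hx).symm
          set b : K := if y ∈ B then 1 else 0 with hb
          have e : Q = X * P K S B l + C b * P K S B l := by
            rw [hQ, hb]
            by_cases h : y ∈ B <;> simp [wt, hx, hy, h, add_mul]
          refine ⟨fun k hk => ?_, ?_, fun m hm => ?_⟩
          · obtain ⟨k', rfl⟩ : ∃ k', k = k' + 1 := ⟨k - 1, by omega⟩
            rw [e, coeff_add, coeff_X_mul, coeff_C_mul, i1 k' (by omega), i1 (k' + 1) (by omega)]
            simp
          · rw [hc, e, coeff_add, coeff_X_mul, coeff_C_mul, i2, i1 _ (Nat.lt_succ_self _)]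
            simp
          · have hm' : (S.erase x).card = m := by omega
            have hd : ((S \ B).card : K) = (((S.erase x) \ B).card : K) + b := by
              by_cases h : x ∈ B
              · have : y ∉ B := hB.1 h
                have e2 : (S.erase x) \ B = S \ B := by
                  ext z
                  simp only [Finset.mem_sdiff, Finset.mem_erase]
                  constructor
                  · tauto
                  · rintro ⟨h1, h2⟩
                    exact ⟨⟨fun h3 => h2 (h3 ▸ h), h1⟩, h2⟩
                rw [e2, hb, if_neg this, add_zero]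
              · have : y ∈ B := by by_contra hy'; exact h (hB.2 hy')
                have e2 : (S.erase x) \ B = (S \ B).erase x := by
                  ext z
                  simp only [Finset.mem_sdiff, Finset.mem_erase]
                  tauto
                rw [e2, hb, if_pos this]
                have := Finset.card_erase_add_one (Finset.mem_sdiff.2 ⟨hx, h⟩)
                rw [← this]
                push_cast
                rfl
            rw [e, coeff_add, coeff_C_mul]
            cases m with
            | zero =>
              have he : S.erase x = ∅ := Finset.card_eq_zero.1 hm'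
              rw [he] at hd i2 ⊢
              rw [full_empty] at i2 ⊢
              rw [val_empty, hd]
              simp only [Finset.card_empty] at i2
              rw [i2]
              have h2 : (1 : K) + 1 = 0 := CharTwo.add_self_eq_zero 1
              simp only [mul_coeff_zero, coeff_X_zero, zero_mul, Finset.empty_sdiff,
                Finset.card_empty, Nat.cast_zero]
              linear_combination -h2
            | succ m =>
              rw [coeff_X_mul, i3 m hm', ← hm', i2, hd]
              ring
        by_cases hx : x ∈ S
        · have hy : y ∉ S := fun h => hboth ⟨hx, h⟩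
          have e1 : (S.erase x).erase y = S.erase x :=
            Finset.erase_eq_of_notMem fun h => hy (Finset.mem_of_mem_erase h)
          have := key x y hx hy hB hxl _ (P_cons S B (x, y) l)
          simp only [full, val, hboth, if_false, e1]
          exact this
        · have hy : y ∈ S := by by_contra h; exact hnone ⟨hx, h⟩
          have e1 : (S.erase x).erase y = S.erase y := by
            rw [Finset.erase_eq_of_notMem hx]
          have hB' : y ∈ B ↔ x ∉ B := by
            rw [hB]; simp
          have := key y x hy hx hB' hyl (P K S B ((x, y) :: l))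
            (by rw [P_cons, add_comm (wt K S B x)])
          simp only [full, val, hboth, if_false, e1]
          exact this

/-- **The value of the near symbol.** -/
theorem tsum_qs_eq {S B : Finset α} {m : ℕ} (hS : S.card = m + 1) (hodd : Odd (S \ B).card)
    {l : List (α × α)} (hl : (letters l).Nodup) (hB : ∀ p ∈ l, (p.1 ∈ B ↔ p.2 ∉ B)) :
    tsum (qs S B m) l ∅ = val K S l := by
  rw [tsum_qs S B m l ∅ hl (by simp), Finset.prod_empty, one_mul,
    (P_values B l S hl hB).2.2 m hS]
  have h2 : (1 : K) + ((S \ B).card : K) = 0 := by
    obtain ⟨t, ht⟩ := hodd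
    rw [ht]
    push_cast
    have h3 : (2 : K) = 0 := CharTwo.two_eq_zero
    rw [h3]
    have : (1 : K) + 1 = 0 := CharTwo.add_self_eq_zero 1
    linear_combination this
  rw [h2, zero_mul, add_zero]

end char_two

/-- The number of the sets of the near symbol. -/
theorem sum_qs {V S B : Finset α} (hS : S ⊆ V) (hB : B ⊆ V) (m j : ℕ) :
    ∑ T ∈ V.powersetCard j, (qs S B m T : K) =
      if m ≤ j then ((S.card.choose m * (B \ S).card.choose (j - m) : ℕ) : K) else 0 := by
  unfold qs
  rw [Finset.sum_ite, Finset.sum_const_zero, add_zero, Finset.sum_const, nsmul_eq_mul, mul_one]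
  split_ifs with h
  · congr 1
    rw [← Finset.card_powersetCard m S, ← Finset.card_powersetCard (j - m) (B \ S),
      ← Finset.card_product]
    refine Finset.card_nbij' (fun T => (T ∩ S, T \ S)) (fun p => p.1 ∪ p.2) ?_ ?_ ?_ ?_
    · intro T hT
      simp only [Finset.coe_filter, Set.mem_ofPred_eq, Finset.mem_powersetCard] at hT
      obtain ⟨⟨h1, h2⟩, h3, h4⟩ := hT
      simp only [Finset.coe_product, Set.mem_prod, Finset.mem_coe, Finset.mem_powersetCard]
      refine ⟨⟨Finset.inter_subset_right, h3⟩, ?_, ?_⟩
      · intro x hx
        exact Finset.mem_sdiff.2 ⟨h4 hx, (Finset.mem_sdiff.1 hx).2⟩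
      · have := Finset.card_inter_add_card_sdiff T S
        omega
    · rintro ⟨A, C⟩ hp
      simp only [Finset.coe_product, Set.mem_prod, Finset.mem_coe, Finset.mem_powersetCard] at hp
      obtain ⟨⟨h1, h2⟩, h3, h4⟩ := hp
      have hdis : Disjoint A C := by
        rw [Finset.disjoint_left]
        intro x hx hx'
        exact (Finset.mem_sdiff.1 (h3 hx')).2 (h1 hx)
      have i1 : (A ∪ C) ∩ S = A := by
        ext x
        simp only [Finset.mem_inter, Finset.mem_union]
        constructor
        · rintro ⟨hx | hx, hxS⟩
          · exact hx
          · exact absurd hxS (Finset.mem_sdiff.1 (h3 hx)).2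
        · intro hx; exact ⟨Or.inl hx, h1 hx⟩
      have i2 : (A ∪ C) \ S = C := by
        ext x
        simp only [Finset.mem_sdiff, Finset.mem_union]
        constructor
        · rintro ⟨hx | hx, hxS⟩
          · exact absurd (h1 hx) hxS
          · exact hx
        · intro hx; exact ⟨Or.inr hx, (Finset.mem_sdiff.1 (h3 hx)).2⟩
      simp only [Finset.coe_filter, Set.mem_ofPred_eq, Finset.mem_powersetCard]
      refine ⟨⟨Finset.union_subset (h1.trans hS)
        ((h3.trans Finset.sdiff_subset).trans hB), ?_⟩, ?_, ?_⟩
      · rw [Finset.card_union_of_disjoint hdis]; omega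
      · rw [i1, h2]
      · rw [i2]; exact h3.trans Finset.sdiff_subset
    · intro T _
      simp only
      rw [Finset.union_comm]
      exact Finset.sdiff_union_inter T S
    · rintro ⟨A, C⟩ hp
      simp only [Finset.coe_product, Set.mem_prod, Finset.mem_coe, Finset.mem_powersetCard] at hp
      obtain ⟨⟨h1, h2⟩, h3, h4⟩ := hp
      ext x
      · simp only [Finset.mem_inter, Finset.mem_union]
        constructor
        · rintro ⟨hx | hx, hxS⟩
          · exact hx
          · exact absurd hxS (Finset.mem_sdiff.1 (h3 hx)).2
        · intro hx; exact ⟨Or.inl hx, h1 hx⟩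
      · simp only [Finset.mem_sdiff, Finset.mem_union]
        constructor
        · rintro ⟨hx | hx, hxS⟩
          · exact absurd (h1 hx) hxS
          · exact hx
        · intro hx; exact ⟨Or.inr hx, (Finset.mem_sdiff.1 (h3 hx)).2⟩
  · rw [Finset.filter_eq_empty_iff.2]
    · simp
    · intro T hT h3
      have h4 := (Finset.mem_powersetCard.1 hT).2
      have h5 := Finset.card_le_card (Finset.inter_subset_left (s₁ := T) (s₂ := S))
      omega

end D81877G
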