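import Pool.Agent.Lib.MP_d81877_alG.Tri

/-!
The same statements as in `Par` and `Tri` for the block of the last sites.
-/

namespace D81877G

open D81877C

set_option linter.unusedSectionVars false

/-- The last `m` letters. -/
def Sl (N m : ℕ) : Finset (Fin N) := Finset.univ.filter fun x => N ≤ x.val + m

theorem mem_Sl {N m : ℕ} {x : Fin N} : x ∈ Sl N m ↔ N ≤ x.val + m := by simp [Sl]

theorem Sl_eq (N m : ℕ) : Sl N m = (Sm N m).map Fin.revPerm.toEmbedding := by
  ext x
  simp only [Sl, Sm, Finset.mem_filter, Finset.mem_univ, true_and, Finset.mem_map_equiv,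
    Fin.revPerm_symm, Fin.revPerm_apply, Fin.val_rev]
  have := x.2
  omega

theorem Bp_rev {N r r' : ℕ} (hN : N % 2 = 0) (hr : r + r' = 1) :
    (Bp N r).map Fin.revPerm.toEmbedding = Bp N r' := by
  ext x
  simp only [Bp, Finset.mem_filter, Finset.mem_univ, true_and, Finset.mem_map_equiv,
    Fin.revPerm_symm, Fin.revPerm_apply, Fin.val_rev]
  have := x.2
  omega

theorem card_Sl {N m : ℕ} (h : m ≤ N) : (Sl N m).card = m := by
  rw [Sl_eq, Finset.card_map, card_Sm h]

theorem map_sdiff' {α β : Type*} [DecidableEq α] [DecidableEq β] (e : α ≃ β) (A B : Finset α) :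
    A.map e.toEmbedding \ B.map e.toEmbedding = (A \ B).map e.toEmbedding := by
  ext x
  simp only [Finset.mem_sdiff, Finset.mem_map_equiv]

theorem card_Sl_sdiff {N m : ℕ} (h : m ≤ N) (hN : N % 2 = 0) :
    (Sl N m \ Bp N 0).card = (m + 1) / 2 ∧ (Sl N m \ Bp N 1).card = m / 2 := by
  have h0 := card_Sm_sdiff h
  rw [Sl_eq, ← Bp_rev (r := 1) (r' := 0) hN (by norm_num), map_sdiff', Finset.card_map, h0.2,
    ← Bp_rev (r := 0) (r' := 1) hN (by norm_num), map_sdiff', Finset.card_map, h0.1]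
  exact ⟨rfl, rfl⟩

theorem card_Bp_Sl {N m : ℕ} (h : m ≤ N) (hN : N % 2 = 0) :
    (Bp N 1 \ Sl N m).card = (N + 1) / 2 - (m + 1) / 2 ∧
    (Bp N 0 \ Sl N m).card = N / 2 - m / 2 := by
  have h0 := card_Bp_sdiff h
  rw [Sl_eq, ← Bp_rev (r := 1) (r' := 0) hN (by norm_num), map_sdiff', Finset.card_map, h0.2,
    ← Bp_rev (r := 0) (r' := 1) hN (by norm_num), map_sdiff', Finset.card_map, h0.1]
  exact ⟨rfl, rfl⟩

variable (K : Type*) [CommRing K]

/-- The near symbol with index `k` for the last block. -/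
def ql (N k : ℕ) : Finset (Fin N) → K :=
  qs (Sl N (2 ^ (k + 1) - 1)) (Bp N (if k = 0 then 0 else 1)) (2 ^ (k + 1) - 2)

theorem sdiff_odd_last {N k : ℕ} (h : 2 ^ (k + 1) ≤ N) (hN : N % 2 = 0) :
    Odd (Sl N (2 ^ (k + 1) - 1) \ Bp N (if k = 0 then 0 else 1)).card := by
  have h1 := card_Sl_sdiff (N := N) (m := 2 ^ (k + 1) - 1) (by omega) hN
  rcases Nat.eq_zero_or_pos k with rfl | hk
  · simp only [if_true]
    rw [h1.1]
    norm_num
  · rw [if_neg (by omega), h1.2]
    obtain ⟨t, rfl⟩ : ∃ t, k = t + 1 := ⟨k - 1, by omega⟩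
    have : 2 ^ (t + 1 + 1) = 4 * 2 ^ t := by ring
    rw [this]
    have hp : 0 < 2 ^ t := by positivity
    refine ⟨2 ^ t - 1, ?_⟩
    omega

/-- **The values of the near symbols** on the non-crossing matchings. -/
theorem tsum_ql [CharP K 2] {N k : ℕ} (h : 2 ^ (k + 1) ≤ N) (hN : N % 2 = 0)
    {l : List (Fin N × Fin N)} (hl : NC Finset.univ l) :
    tsum (ql K N k) l ∅ = val K (Sl N (2 ^ (k + 1) - 1)) l := by
  have hp : 2 ≤ 2 ^ (k + 1) := by
    have : 0 < 2 ^ k := by positivity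
    rw [pow_succ]; omega
  refine tsum_qs_eq ?_ (sdiff_odd_last h hN) hl.good.1 ?_
  · rw [card_Sl (by omega)]; omega
  · intro p hp
    have := hl.val_ne p hp
    simp only [Bp, Finset.mem_filter, Finset.mem_univ, true_and]
    split_ifs <;> omega

/-- **The Gamma values of the near symbols** form a unitriangular matrix. -/
theorem sum_ql [CharP K 2] {N k l : ℕ} (h : 2 ^ (k + 1) ≤ N) (hN : N % 4 = 2) (hlk : l ≤ k) :
    ∑ T ∈ (Finset.univ : Finset (Fin N)).powersetCard (2 ^ (l + 1) - 1), ql K N k T =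
      if l = k then 1 else 0 := by
  have hp : 0 < 2 ^ k := by positivity
  have hpk : 2 ^ (k + 1) = 2 * 2 ^ k := by ring
  unfold ql
  rw [sum_qs (Finset.subset_univ _) (Finset.subset_univ _)]
  rcases Nat.lt_or_ge l k with hlt | hge
  · have : 2 ^ (l + 1) ≤ 2 ^ k := Nat.pow_le_pow_right (by norm_num) hlt
    have hl0 : 0 < 2 ^ l := by positivity
    have hpl : 2 ^ (l + 1) = 2 * 2 ^ l := by ring
    rw [if_neg (by omega), if_neg (by omega)]
  · obtain rfl : l = k := le_antisymm hlk hge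
    rw [if_pos (by omega), if_pos rfl, card_Sl (by omega)]
    have e1 : 2 ^ (l + 1) - 1 - (2 ^ (l + 1) - 2) = 1 := by omega
    have e2 : (2 ^ (l + 1) - 1).choose (2 ^ (l + 1) - 2) = 2 ^ (l + 1) - 1 := by
      have : 2 ^ (l + 1) - 1 = (2 ^ (l + 1) - 2) + 1 := by omega
      rw [this, Nat.choose_succ_self_right]
    rw [e1, e2, Nat.choose_one_right]
    have h1 := card_Bp_Sl (N := N) (m := 2 ^ (l + 1) - 1) (by omega) (by omega)
    have key : Odd ((2 ^ (l + 1) - 1) *
        (Bp N (if l = 0 then 0 else 1) \ Sl N (2 ^ (l + 1) - 1)).card) := by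
      refine Odd.mul ⟨2 ^ l - 1, by omega⟩ ?_
      rcases Nat.eq_zero_or_pos l with rfl | hl
      · simp only [if_true]
        rw [h1.2]
        refine ⟨N / 4, ?_⟩
        norm_num
        omega
      · rw [if_neg (by omega), h1.1]
        obtain ⟨t, rfl⟩ : ∃ t, l = t + 1 := ⟨l - 1, by omega⟩
        have : 2 ^ (t + 1 + 1) = 4 * 2 ^ t := by ring
        have hpt : 0 < 2 ^ t := by positivity
        rw [this] at h ⊢
        refine ⟨N / 4 - 2 ^ t, ?_⟩
        omega
    obtain ⟨t, ht⟩ := key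
    rw [ht]
    push_cast
    have h3 : (2 : K) = 0 := CharTwo.two_eq_zero
    rw [h3]
    ring

/-- The value of a functional `Gamma` at a function which on the non-crossing matchings is given by
the block of the last `2 ^ (k + 1) - 1` letters. -/
theorem gamma_value_last {K : Type*} [CommRing K] [CharP K 2] {N k l : ℕ} (h : 2 ^ (k + 1) ≤ N)
    (hN : N % 4 = 2) (hlk : l ≤ k) (c : List (Fin N × Fin N) →₀ K)
    (hc : ∀ (n : List (Fin N × Fin N) → K) (q : Finset (Fin N) → K),
      IsSymbol Finset.univ (2 ^ (l + 1) - 1) n q → (c.sum fun l x => x * n l) =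
        ∑ I ∈ (Finset.univ : Finset (Fin N)).powersetCard (2 ^ (l + 1) - 1), q I)
    (n : List (Fin N × Fin N) → K) (hrel : Rel Finset.univ (2 ^ (l + 1) - 1) n)
    (hval : ∀ m, NC Finset.univ m → m.length = 2 ^ (l + 1) - 1 →
      n m = val K (Sl N (2 ^ (k + 1) - 1)) m) :
    (c.sum fun l x => x * n l) = if l = k then 1 else 0 := by
  have hs : IsSymbol Finset.univ (2 ^ (l + 1) - 1) n (ql K N k) :=
    isSymbol_of_nc hrel fun m hm hmj => by rw [hval m hm hmj, tsum_ql K h (by omega) hm]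
  rw [hc n _ hs, sum_ql K h hN hlk]

end D81877G
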