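import Pool.Agent.Lib.MP_d81877_alG.Value

/-!
The near values of the elements `TS S β`.
-/

namespace D81877G

open D81877ZF D81877C Finset

set_option linter.unusedSectionVars false

section basic

variable {ι : Type*} [DecidableEq ι] {K : Type*} [Field K]

/-- The iterated contraction, evaluated at `θ_A f_x`. -/
def nZ (A : Finset ι) (x : ι) : List (ι × ι) → Z ι K → K
  | [], w => w A {x}
  | p :: l, w => nZ A x l (ct p.1 p.2 w)

theorem nZ_nil (A : Finset ι) (x : ι) (w : Z ι K) : nZ A x [] w = w A {x} := rfl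

theorem nZ_cons (A : Finset ι) (x : ι) (p : ι × ι) (l : List (ι × ι)) (w : Z ι K) :
    nZ A x (p :: l) w = nZ A x l (ct p.1 p.2 w) := rfl

theorem nZ_zero (A : Finset ι) (x : ι) (l : List (ι × ι)) : nZ A x l (0 : Z ι K) = 0 := by
  induction l with
  | nil => rfl
  | cons p l ih => rw [nZ_cons, map_zero, ih]

theorem TT_comm (x y : ι) : TT K x y = TT K y x := by
  unfold TT; ring

theorem AA_low (a : AA ι K) : ∀ w : Z ι K, (∀ A, w A ∅ = 0) → ∀ A, a.val w A ∅ = 0 := by
  obtain ⟨a, ha⟩ := a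
  show ∀ w : Z ι K, (∀ A, w A ∅ = 0) → ∀ A, a w A ∅ = 0
  induction ha using Algebra.adjoin_induction with
  | mem a ha =>
    rcases ha with ⟨x, rfl⟩ | ⟨x, rfl⟩
    · intro w _ A; simp [f_apply]
    · intro w hw A
      rw [d_apply]
      split_ifs
      · rfl
      · exact hw _
  | algebraMap r =>
    intro w hw A
    have : (algebraMap K (Module.End K (Z ι K)) r) w = r • w := rfl
    rw [this]
    simp [hw A]
  | add a b _ _ ha hb =>
    intro w hw A
    have h1 := ha w hw A
    have h2 := hb w hw A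
    show a w A ∅ + b w A ∅ = 0
    rw [h1, h2, add_zero]
  | mul a b _ _ ha hb =>
    intro w hw A
    exact ha (b w) (fun A => hb w hw A) A

theorem f_low (x x0 : ι) (w : Z ι K) (hw : ∀ A, w A ∅ = 0) (A : Finset ι) :
    f x w A {x0} = 0 := by
  rw [f_apply]
  split_ifs with h
  · rw [mem_singleton] at h
    subst h
    rw [erase_singleton]
    exact hw A
  · rfl

theorem TT_low (r x x0 : ι) (w : Z ι K) (hw : ∀ A, w A ∅ = 0) (A : Finset ι) :
    (TT K r x).val w A {x0} = 0 := by
  have e : (TT K r x).val w A {x0} = f r (((dA K r + dA K x : AA ι K)).val w) A {x0} +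
      f x (((dA K r + dA K x : AA ι K)).val w) A {x0} +
      f r ((fA K x * (dA K r * dA K x) : AA ι K).val w) A {x0} := rfl
  rw [e, f_low r x0 _ (AA_low _ w hw), f_low x x0 _ (AA_low _ w hw), f_low r x0 _ (AA_low _ w hw)]
  simp

theorem β_low (V : Finset ι) (b : ℕ) (A : Finset ι) : β K V b A ∅ = 0 :=
  β_of_card_ne (by simp)

variable [CharP K 2]

theorem TS_erase {S : Finset ι} {r x : ι} (hr : r ∈ S) (hx : x ∈ S) (hrx : r ≠ x) :
    TS K S = TT K r x * TS K (S.erase x) := by
  have h := TS_insert (K := K) (S := S.erase x) (r := r) (x := x) (mem_erase.2 ⟨hrx, hr⟩)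
    (notMem_erase x S)
  rwa [insert_erase hx] at h

/-- The contraction of a site of the block with another site. -/
theorem ct_TS_one {x y : ι} (hxy : x ≠ y) {V S : Finset ι} (hx : x ∈ V) (hy : y ∈ V)
    (hxS : x ∈ S) (hyS : y ∉ S) (b : ℕ) :
    ct x y ((TS K S).val (β K V (b + 1))) =
      (TS K (S.erase x)).val (β K ((V.erase x).erase y) b) := by
  have hy' : y ∉ S.erase x := fun h => hyS (mem_of_mem_erase h)
  rcases (S.erase x).eq_empty_or_nonempty with h | ⟨z, hz⟩
  · have hS : S = {x} := by rw [← insert_erase hxS, h]; rfl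
    rw [h, hS, TS_singleton, TS_empty]
    exact ct_β hxy hx hy b
  · have hzx := (mem_erase.1 hz).1
    have hzS := (mem_erase.1 hz).2
    have hzy : z ≠ y := fun h => hyS (h ▸ hzS)
    rw [TS_erase hzS hxS hzx, mul_comm, TT_comm z x, mul_val_apply,
      ct_of_mem (TS_mem (notMem_erase x S) hy'), ct_TT_β hxy hzx hzy hx hy b]

end basic

variable {ι : Type*} [LinearOrder ι] {K : Type*} [Field K] [CharP K 2]

/-- **The near values.** -/
theorem nZ_TS {A : Finset ι} {x : ι} (hxA : x ∉ A) (l : List (ι × ι)) :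
    ∀ (V S : Finset ι) (b : ℕ), NC V l → S ⊆ V → A ⊆ rest V l → x ∈ rest V l →
      A.card + 2 * l.length = 2 * b → nZ A x l ((TS K S).val (β K V b)) = val K S l := by
  induction l with
  | nil =>
    intro V S b _ hSV hA hx hc
    rw [rest_nil] at hA hx
    rw [nZ_nil, val]
    split_ifs with h
    · have h1 : TS K S = 1 := by
        rcases Nat.le_one_iff_eq_zero_or_eq_one.1 h with h0 | h0
        · rw [card_eq_zero.1 h0, TS_empty]
        · obtain ⟨y, rfl⟩ := card_eq_one.1 h0
          exact TS_singleton y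
      rw [h1]
      show β K V b A {x} = 1
      rw [β_single, if_pos ⟨hA, by simpa using hc, hx, hxA⟩]
    · obtain ⟨r, hr, y, hy, hry⟩ := one_lt_card.1 (not_le.1 h)
      rw [TS_erase hr hy hry, mul_val_apply]
      exact TT_low r y x _ (AA_low _ _ (β_low V b)) A
  | cons p l ih =>
    intro V S b h hSV hA hx hc
    obtain ⟨y, z⟩ := p
    obtain ⟨⟨hy, hz, hyz, _⟩, hl⟩ := nc_cons.1 h
    simp only at hy hz hyz hl
    rw [rest_cons] at hA hx
    simp only at hA hx
    obtain ⟨b, rfl⟩ : ∃ b', b = b' + 1 := ⟨b - 1, by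
      rw [List.length_cons] at hc; omega⟩
    have hc' : A.card + 2 * l.length = 2 * b := by
      rw [List.length_cons] at hc; omega
    rw [nZ_cons, val]
    simp only
    by_cases hyS : y ∈ S
    · by_cases hzS : z ∈ S
      · rw [if_pos ⟨hyS, hzS⟩, TS_erase hyS hzS hyz.ne, mul_val_apply, ct_TT hyz.ne, nZ_zero]
      · rw [if_neg (fun h => hzS h.2), ct_TS_one hyz.ne hy hz hyS hzS,
          erase_eq_of_notMem (a := z) (fun h => hzS (mem_of_mem_erase h))]
        refine ih _ _ b hl ?_ hA hx hc'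
        intro t ht
        rw [mem_erase] at ht
        exact mem_erase.2 ⟨fun h' => hzS (h' ▸ ht.2), mem_erase.2 ⟨ht.1, hSV ht.2⟩⟩
    · rw [if_neg (fun h => hyS h.1), erase_eq_of_notMem hyS]
      by_cases hzS : z ∈ S
      · rw [ct_symm, ct_TS_one hyz.ne' hz hy hzS hyS, erase_right_comm]
        refine ih _ _ b hl ?_ hA hx hc'
        intro t ht
        rw [mem_erase] at ht
        exact mem_erase.2 ⟨ht.1, mem_erase.2 ⟨fun h' => hyS (h' ▸ ht.2), hSV ht.2⟩⟩
      · rw [erase_eq_of_notMem hzS, ct_of_mem (TS_mem hyS hzS), ct_β hyz.ne hy hz b]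
        refine ih _ _ b hl ?_ hA hx hc'
        intro t ht
        exact mem_erase.2 ⟨fun h' => hzS (h' ▸ ht), mem_erase.2 ⟨fun h' => hyS (h' ▸ ht), hSV ht⟩⟩

end D81877G
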