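import Pool.Agent.Lib.MP_d81877_alC.Symbol

/-!
Two functions on the `j`-matchings of a finite linearly ordered set with the triangle and the
crossing relations agree as soon as they agree on the non-crossing matchings, that is, on the lists
of pairs which arise by removing successively two letters which are adjacent in what is left.
-/

namespace D81877G

open D81877C

set_option linter.unusedSectionVars false

variable {α : Type*} [LinearOrder α] {K : Type*} [CommRing K]

/-- `a < b` are adjacent in `V`. -/
def Adj (V : Finset α) (a b : α) : Prop :=
  a ∈ V ∧ b ∈ V ∧ a < b ∧ ∀ x ∈ V, ¬ (a < x ∧ x < b)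

/-- The lists of pairs which arise from `V` by removing successively pairs of adjacent letters. -/
def NC : Finset α → List (α × α) → Prop
  | _, [] => True
  | V, p :: l => Adj V p.1 p.2 ∧ NC ((V.erase p.1).erase p.2) l

@[simp] theorem nc_nil (V : Finset α) : NC V [] := trivial

theorem nc_cons {V : Finset α} {p : α × α} {l : List (α × α)} :
    NC V (p :: l) ↔ Adj V p.1 p.2 ∧ NC ((V.erase p.1).erase p.2) l := Iff.rfl

/-- What is left of `V` after the removal of the letters of `l`. -/
def rest (V : Finset α) (l : List (α × α)) : Finset α := V.filter fun x => x ∉ letters l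

theorem mem_rest {V : Finset α} {l : List (α × α)} {x : α} :
    x ∈ rest V l ↔ x ∈ V ∧ x ∉ letters l := by simp [rest]

@[simp] theorem rest_nil (V : Finset α) : rest V [] = V := by
  ext x; simp [rest]

theorem rest_cons (V : Finset α) (p : α × α) (l : List (α × α)) :
    rest V (p :: l) = rest ((V.erase p.1).erase p.2) l := by
  ext x
  simp only [mem_rest, letters_cons, List.mem_cons, not_or, Finset.mem_erase]
  tauto

theorem NC.good {l : List (α × α)} : ∀ {V : Finset α}, NC V l → Good V l := by
  induction l with
  | nil => intro V _; exact good_nil V
  | cons p l ih =>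
    intro V h
    obtain ⟨a, b⟩ := p
    obtain ⟨⟨ha, hb, hab, _⟩, hl⟩ := nc_cons.1 h
    have hg := ih hl
    refine good_cons.2 ⟨ha, hb, ne_of_lt hab, ?_, ?_, hg.mono ?_⟩
    · intro h'
      have := hg.2 a h'
      simp at this
    · intro h'
      have := hg.2 b h'
      simp at this
    · exact (Finset.erase_subset _ _).trans (Finset.erase_subset _ _)

/-- Appending a pair which is adjacent in what is left. -/
theorem NC.append {a b : α} {l : List (α × α)} :
    ∀ {V : Finset α}, NC V l → Adj (rest V l) a b → NC V (l ++ [(a, b)]) := by
  induction l with
  | nil =>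
    intro V _ h
    rw [rest_nil] at h
    exact nc_cons.2 ⟨h, trivial⟩
  | cons p l ih =>
    intro V h hab
    obtain ⟨hp, hl⟩ := nc_cons.1 h
    rw [rest_cons] at hab
    exact nc_cons.2 ⟨hp, ih hl hab⟩

/-- A new largest letter does not destroy the property. -/
theorem NC.insert_max {v : α} {l : List (α × α)} :
    ∀ {V : Finset α}, (∀ x ∈ V, x < v) → NC V l → NC (insert v V) l := by
  induction l with
  | nil => intro V _ _; trivial
  | cons p l ih =>
    intro V hv h
    obtain ⟨⟨ha, hb, hab, hx⟩, hl⟩ := nc_cons.1 h
    refine nc_cons.2 ⟨⟨Finset.mem_insert_of_mem ha, Finset.mem_insert_of_mem hb, hab, ?_⟩, ?_⟩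
    · intro x hxV
      rcases Finset.mem_insert.1 hxV with rfl | hxV
      · intro h'
        exact absurd (hv _ hb) (not_lt.2 h'.2.le)
      · exact hx x hxV
    · have e : ((insert v V).erase p.1).erase p.2 = insert v ((V.erase p.1).erase p.2) := by
        rw [Finset.erase_insert_of_ne (ne_of_gt (hv _ ha)),
          Finset.erase_insert_of_ne (ne_of_gt (hv _ hb))]
      rw [e]
      refine ih (fun x hx => hv x ?_) hl
      exact Finset.mem_of_mem_erase (Finset.mem_of_mem_erase hx)

section char_two

variable [CharP K 2]

/-- A function with the relations which vanishes on the non-crossing matchings is zero. -/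
theorem rel_eq_zero (V : Finset α) :
    ∀ (j : ℕ) (n : List (α × α) → K), Rel V j n → (∀ l, NC V l → l.length = j → n l = 0) →
      ∀ l, Good V l → l.length = j → n l = 0 := by
  induction V using Finset.induction_on_max with
  | empty =>
    intro j n _ h l hl hj
    cases l with
    | nil => exact h [] trivial hj
    | cons p l => exact absurd (hl.2 p.1 (by simp)) (Finset.notMem_empty _)
  | insert v V' hmax ih =>
    intro j n hn h l hl hj
    have hv : v ∉ V' := fun h' => lt_irrefl _ (hmax v h')
    cases j with
    | zero =>
      cases l with
      | nil => exact h [] trivial rfl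
      | cons p l => simp at hj
    | succ j =>
      have h1 : ∀ l, Good V' l → l.length = j + 1 → n l = 0 :=
        ih (j + 1) n (hn.mono (Finset.subset_insert _ _))
          (fun l hl hj => h l (NC.insert_max hmax hl) hj)
      have hq : IsSymbol V' (j + 1) n (fun _ => (0 : K)) := by
        intro l hl hj
        rw [h1 l hl hj]
        clear hl hj
        generalize (∅ : Finset α) = S
        induction l generalizing S with
        | nil => rfl
        | cons p l ihl => rw [tsum_cons, ← ihl, ← ihl, add_zero]
      have t0 : ∀ (m : List (α × α)) (S : Finset α), tsum (fun _ => (0 : K)) m S = 0 := by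
        intro m
        induction m with
        | nil => intro S; rfl
        | cons p m ihm => intro S; rw [tsum_cons, ihm, ihm, add_zero]
      by_cases hvl : v ∈ letters l
      · have hcard : 2 * j < V'.card := by
          have := hl.card_le
          rw [Finset.card_insert_of_notMem hv] at this
          omega
        have key : ∀ m, Good V' m → m.length = j → ∀ i ∈ V', i ∉ letters m →
            n ((v, i) :: m) = 0 := by
          intro m hm hmj i hi him
          have hz : peel V' v n (fun _ => (0 : K)) m = 0 := by
            refine ih j _ (peel_rel hv hn hq hcard) ?_ m hm hmj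
            intro m hm hmj
            have hmg := hm.good
            -- the largest free letter
            have hne : (rest V' m).Nonempty := by
              obtain ⟨i, hi, him⟩ := hmg.exists_free (by omega)
              exact ⟨i, mem_rest.2 ⟨hi, him⟩⟩
            set i := (rest V' m).max' hne with hidef
            have hir := Finset.max'_mem _ hne
            rw [← hidef] at hir
            obtain ⟨hi, him⟩ := mem_rest.1 hir
            rw [peel_spec hv hn hq hmg hmj hi him, t0, add_zero]
            have hvi : v ≠ i := ne_of_gt (hmax i hi)
            have hvm : v ∉ letters m := fun h' => hv (hmg.2 v h')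
            have hg : Good (insert v V') ((v, i) :: m) :=
              good_cons.2 ⟨Finset.mem_insert_self _ _, Finset.mem_insert_of_mem hi, hvi, hvm, him,
                hmg.mono (Finset.subset_insert _ _)⟩
            have hg' : Good (insert v V') ((i, v) :: m) :=
              good_cons.2 ⟨Finset.mem_insert_of_mem hi, Finset.mem_insert_self _ _, hvi.symm, him,
                hvm, hmg.mono (Finset.subset_insert _ _)⟩
            rw [hn.swap v i m hg (by omega)]
            have hp : ((i, v) :: m).Perm (m ++ [(i, v)]) :=
              (List.perm_append_singleton (i, v) m).symm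
            rw [hn.perm _ _ hg' (by simp [hmj]) hp]
            refine h _ (NC.append (NC.insert_max hmax hm) ?_) (by simp [hmj])
            refine ⟨mem_rest.2 ⟨Finset.mem_insert_of_mem hi, him⟩,
              mem_rest.2 ⟨Finset.mem_insert_self _ _, hvm⟩, hmax i hi, ?_⟩
            intro x hx hlt
            obtain ⟨hxV, hxm⟩ := mem_rest.1 hx
            rcases Finset.mem_insert.1 hxV with rfl | hxV
            · exact lt_irrefl _ hlt.2
            · have := Finset.le_max' (rest V' m) x (mem_rest.2 ⟨hxV, hxm⟩)
              exact absurd hlt.1 (not_lt.2 this)
          rw [peel_spec hv hn hq hm hmj hi him, t0, add_zero] at hz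
          exact hz
        obtain ⟨i, m, hp | hp⟩ := exists_perm_of_mem hvl
        · have hg := hl.perm hp
          have hmj : m.length = j := by
            have := hp.length_eq; simp at this; omega
          rw [hn.perm l _ hl hj hp]
          obtain ⟨_, hi, hvi, hvm, him, hm⟩ := good_cons.1 hg
          refine key m ⟨hm.1, fun x hx => ?_⟩ hmj i ?_ him
          · rcases Finset.mem_insert.1 (hm.2 x hx) with h' | h'
            · exact absurd (h' ▸ hx) hvm
            · exact h'
          · rcases Finset.mem_insert.1 hi with h' | h'
            · exact absurd h'.symm hvi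
            · exact h'
        · have hg := hl.perm hp
          have hmj : m.length = j := by
            have := hp.length_eq; simp at this; omega
          rw [hn.perm l _ hl hj hp, hn.swap i v m hg (by omega)]
          obtain ⟨hi, _, hiv, him, hvm, hm⟩ := good_cons.1 hg
          refine key m ⟨hm.1, fun x hx => ?_⟩ hmj i ?_ him
          · rcases Finset.mem_insert.1 (hm.2 x hx) with h' | h'
            · exact absurd (h' ▸ hx) hvm
            · exact h'
          · rcases Finset.mem_insert.1 hi with h' | h'
            · exact absurd h' hiv
            · exact h'
      · refine h1 l ⟨hl.1, fun x hx => ?_⟩ hj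
        rcases Finset.mem_insert.1 (hl.2 x hx) with h' | h'
        · exact absurd (h' ▸ hx) hvl
        · exact h'

theorem Rel.add {V : Finset α} {j : ℕ} {n n' : List (α × α) → K} (h : Rel V j n)
    (h' : Rel V j n') : Rel V j (fun l => n l + n' l) where
  perm l l' hl hj hp := by simp only [h.perm l l' hl hj hp, h'.perm l l' hl hj hp]
  swap a b l hl hj := by simp only [h.swap a b l hl hj, h'.swap a b l hl hj]
  tri a b c l hl hc hca hcb hcl hj := by
    have e1 := h.tri a b c l hl hc hca hcb hcl hj
    have e2 := h'.tri a b c l hl hc hca hcb hcl hj
    linear_combination e1 + e2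
  cross a b c d l hl hj := by
    have e1 := h.cross a b c d l hl hj
    have e2 := h'.cross a b c d l hl hj
    linear_combination e1 + e2

/-- **Non-crossing matchings suffice.** -/
theorem rel_ext {V : Finset α} {j : ℕ} {n n' : List (α × α) → K} (h : Rel V j n)
    (h' : Rel V j n') (hnc : ∀ l, NC V l → l.length = j → n l = n' l) :
    ∀ l, Good V l → l.length = j → n l = n' l := by
  intro l hl hj
  have := rel_eq_zero V j _ (Rel.add h h') (fun l hl hj => by
    simp only [hnc l hl hj]; exact add_self0 _) l hl hj
  exact eq_of_add0 this

/-- The function of a symbol has the relations. -/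
theorem rel_tsum (V : Finset α) (j : ℕ) (q : Finset α → K) : Rel V j (fun l => tsum q l ∅) where
  perm l l' _ _ hp := tsum_perm q hp ∅
  swap a b l _ _ := tsum_swap q a b l ∅
  tri a b c l _ _ _ _ _ _ := by
    simp only [tsum_cons]
    have e1 := add_self0 (tsum q l (insert a ∅))
    have e2 := add_self0 (tsum q l (insert b ∅))
    have e3 := add_self0 (tsum q l (insert c ∅))
    linear_combination e1 + e2 + e3
  cross a b c d l _ _ := by
    simp only [tsum_cons]
    have i1 : (insert b (insert c ∅) : Finset α) = insert c (insert b ∅) := Finset.insert_comm _ _ _
    have i2 : (insert d (insert c ∅) : Finset α) = insert c (insert d ∅) := Finset.insert_comm _ _ _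
    have i3 : (insert d (insert a ∅) : Finset α) = insert a (insert d ∅) := Finset.insert_comm _ _ _
    have i4 : (insert b (insert a ∅) : Finset α) = insert a (insert b ∅) := Finset.insert_comm _ _ _
    have i5 : (insert d (insert b ∅) : Finset α) = insert b (insert d ∅) := Finset.insert_comm _ _ _
    have i6 : (insert c (insert a ∅) : Finset α) = insert a (insert c ∅) := Finset.insert_comm _ _ _
    simp only [i1, i2, i3, i4, i5, i6]
    have e1 := add_self0 (tsum q l (insert a (insert b ∅)))
    have e2 := add_self0 (tsum q l (insert a (insert d ∅)))
    have e3 := add_self0 (tsum q l (insert c (insert b ∅)))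
    have e4 := add_self0 (tsum q l (insert c (insert d ∅)))
    have e5 := add_self0 (tsum q l (insert b (insert d ∅)))
    have e6 := add_self0 (tsum q l (insert a (insert c ∅)))
    linear_combination e1 + e2 + e3 + e4 + e5 + e6

/-- A function with the relations which on the non-crossing matchings is given by `q` has the
symbol `q`. -/
theorem isSymbol_of_nc {V : Finset α} {j : ℕ} {n : List (α × α) → K} {q : Finset α → K}
    (h : Rel V j n) (hnc : ∀ l, NC V l → l.length = j → n l = tsum q l ∅) :
    IsSymbol V j n q :=
  rel_ext h (rel_tsum V j q) hnc

end char_two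

end D81877G
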