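import Pool.Agent.Lib.MP_d81877_alG.Count

/-!
The pairs of a non-crossing matching of `Fin N` join an even and an odd position. The near symbols
for `N = 2 n` with `n` odd, and the number of their sets.
-/

namespace D81877G

open D81877C

set_option linter.unusedSectionVars false

section pos

variable {α : Type*} [LinearOrder α]

/-- The position of `x` in `V`. -/
def pos (V : Finset α) (x : α) : ℕ := (V.filter (· < x)).card

theorem pos_adj {V : Finset α} {a b : α} (h : Adj V a b) : pos V b = pos V a + 1 := by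
  obtain ⟨ha, hb, hab, hx⟩ := h
  have e : V.filter (· < b) = insert a (V.filter (· < a)) := by
    ext x
    simp only [Finset.mem_filter, Finset.mem_insert]
    constructor
    · rintro ⟨h1, h2⟩
      rcases lt_trichotomy x a with h | h | h
      · exact Or.inr ⟨h1, h⟩
      · exact Or.inl h
      · exact absurd ⟨h, h2⟩ (hx x h1)
    · rintro (rfl | ⟨h1, h2⟩)
      · exact ⟨ha, hab⟩
      · exact ⟨h1, h2.trans hab⟩
  rw [pos, e, Finset.card_insert_of_notMem (by simp), pos]

theorem pos_erase {V : Finset α} {a b : α} (h : Adj V a b) {x : α} (hx : x ∈ V) (hxa : x ≠ a)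
    (hxb : x ≠ b) : pos V x % 2 = pos ((V.erase a).erase b) x % 2 := by
  obtain ⟨ha, hb, hab, hadj⟩ := h
  have e : ((V.erase a).erase b).filter (· < x) = ((V.filter (· < x)).erase a).erase b := by
    ext y
    simp only [Finset.mem_filter, Finset.mem_erase]
    tauto
  rw [pos, pos, e]
  rcases lt_trichotomy x a with h | h | h
  · rw [Finset.erase_eq_of_notMem (a := a) (by simp [h.le]),
      Finset.erase_eq_of_notMem (a := b) (by simp [(h.trans hab).le])]
  · exact absurd h hxa
  · have hbx : b < x := by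
      rcases lt_trichotomy x b with h' | h' | h'
      · exact absurd ⟨h, h'⟩ (hadj x hx)
      · exact absurd h' hxb
      · exact h'
    have h1 : a ∈ V.filter (· < x) := by simp [ha, h]
    have h2 : b ∈ (V.filter (· < x)).erase a := by simp [hb, hbx, hab.ne']
    have c1 := Finset.card_erase_add_one h1
    have c2 := Finset.card_erase_add_one h2
    omega

/-- The pairs of a non-crossing matching join positions of different parity. -/
theorem NC.pos_ne {l : List (α × α)} :
    ∀ {V : Finset α}, NC V l → ∀ p ∈ l, pos V p.1 % 2 ≠ pos V p.2 % 2 := by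
  induction l with
  | nil => intro V _ p hp; simp at hp
  | cons q l ih =>
    intro V h p hp
    obtain ⟨hq, hl⟩ := nc_cons.1 h
    rcases List.mem_cons.1 hp with rfl | hp
    · have := pos_adj hq
      omega
    · have hg := h.good
      have h1 : p.1 ∈ letters l := by
        unfold letters; exact List.mem_flatMap.2 ⟨p, hp, by simp⟩
      have h2 : p.2 ∈ letters l := by
        unfold letters; exact List.mem_flatMap.2 ⟨p, hp, by simp⟩
      obtain ⟨_, _, _, n1, n2, _⟩ := good_cons.1 (show Good V ((q.1, q.2) :: l) from hg)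
      have a1 : p.1 ≠ q.1 := fun h' => n1 (h' ▸ h1)
      have a2 : p.1 ≠ q.2 := fun h' => n2 (h' ▸ h1)
      have a3 : p.2 ≠ q.1 := fun h' => n1 (h' ▸ h2)
      have a4 : p.2 ≠ q.2 := fun h' => n2 (h' ▸ h2)
      have m1 : p.1 ∈ V := hg.2 _ (by simp [h1])
      have m2 : p.2 ∈ V := hg.2 _ (by simp [h2])
      rw [pos_erase hq m1 a1 a2, pos_erase hq m2 a3 a4]
      exact ih hl p hp

end pos

theorem pos_fin {N : ℕ} (x : Fin N) : pos (Finset.univ : Finset (Fin N)) x = x.val := by
  unfold pos
  have : (Finset.univ : Finset (Fin N)).filter (· < x) = Finset.Iio x := by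
    ext y; simp
  rw [this, Fin.card_Iio]

theorem NC.val_ne {N : ℕ} {l : List (Fin N × Fin N)} (h : NC Finset.univ l) :
    ∀ p ∈ l, p.1.val % 2 ≠ p.2.val % 2 := by
  intro p hp
  have := h.pos_ne p hp
  rwa [pos_fin, pos_fin] at this

/-- The first `m` letters. -/
def Sm (N m : ℕ) : Finset (Fin N) := Finset.univ.filter fun x => x.val < m

/-- The letters of parity `r`. -/
def Bp (N r : ℕ) : Finset (Fin N) := Finset.univ.filter fun x => x.val % 2 = r

theorem card_filter_fin (N : ℕ) (p : ℕ → Prop) [DecidablePred p] :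
    (Finset.univ.filter fun x : Fin N => p x.val).card = ((Finset.range N).filter p).card := by
  rw [← Finset.card_map Fin.valEmbedding]
  congr 1
  ext y
  simp only [Finset.mem_map, Finset.mem_filter, Finset.mem_univ, true_and, Fin.valEmbedding_apply,
    Finset.mem_range]
  constructor
  · rintro ⟨x, hx, rfl⟩; exact ⟨x.2, hx⟩
  · rintro ⟨h1, h2⟩; exact ⟨⟨y, h1⟩, h2, rfl⟩

theorem card_Sm {N m : ℕ} (h : m ≤ N) : (Sm N m).card = m := by
  unfold Sm
  rw [card_filter_fin N (fun x => x < m)]
  have : (Finset.range N).filter (fun x => x < m) = Finset.range m := by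
    ext y; simp only [Finset.mem_filter, Finset.mem_range]; omega
  rw [this, Finset.card_range]

theorem card_range_mod (m : ℕ) : ((Finset.range m).filter fun x => x % 2 = 1).card = m / 2 ∧
    ((Finset.range m).filter fun x => x % 2 = 0).card = (m + 1) / 2 := by
  induction m with
  | zero => simp
  | succ m ih =>
    rw [Finset.range_add_one, Finset.filter_insert, Finset.filter_insert]
    obtain ⟨h1, h2⟩ := ih
    rcases Nat.mod_two_eq_zero_or_one m with h | h
    · rw [if_neg (by omega), if_pos h, Finset.card_insert_of_notMem (by simp), h1, h2]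
      omega
    · rw [if_pos h, if_neg (by omega), Finset.card_insert_of_notMem (by simp), h1, h2]
      omega

theorem card_Sm_sdiff {N m : ℕ} (h : m ≤ N) : (Sm N m \ Bp N 0).card = m / 2 ∧
    (Sm N m \ Bp N 1).card = (m + 1) / 2 := by
  have e0 : Sm N m \ Bp N 0 = Finset.univ.filter fun x : Fin N => x.val < m ∧ x.val % 2 = 1 := by
    ext x; simp only [Sm, Bp, Finset.mem_sdiff, Finset.mem_filter, Finset.mem_univ, true_and]; omega
  have e1 : Sm N m \ Bp N 1 = Finset.univ.filter fun x : Fin N => x.val < m ∧ x.val % 2 = 0 := by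
    ext x; simp only [Sm, Bp, Finset.mem_sdiff, Finset.mem_filter, Finset.mem_univ, true_and]; omega
  have f0 : (Finset.range N).filter (fun x => x < m ∧ x % 2 = 1) =
      (Finset.range m).filter fun x => x % 2 = 1 := by
    ext x; simp only [Finset.mem_filter, Finset.mem_range]; omega
  have f1 : (Finset.range N).filter (fun x => x < m ∧ x % 2 = 0) =
      (Finset.range m).filter fun x => x % 2 = 0 := by
    ext x; simp only [Finset.mem_filter, Finset.mem_range]; omega
  refine ⟨?_, ?_⟩
  · rw [e0, card_filter_fin N (fun x => x < m ∧ x % 2 = 1), f0, (card_range_mod m).1]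
  · rw [e1, card_filter_fin N (fun x => x < m ∧ x % 2 = 0), f1, (card_range_mod m).2]

theorem card_Bp (N : ℕ) : (Bp N 1).card = N / 2 ∧ (Bp N 0).card = (N + 1) / 2 := by
  unfold Bp
  rw [card_filter_fin N (fun x => x % 2 = 1), card_filter_fin N (fun x => x % 2 = 0)]
  exact card_range_mod N

theorem card_Bp_sdiff {N m : ℕ} (h : m ≤ N) : (Bp N 0 \ Sm N m).card = (N + 1) / 2 - (m + 1) / 2 ∧
    (Bp N 1 \ Sm N m).card = N / 2 - m / 2 := by
  have a0 := Finset.card_sdiff_add_card (Bp N 0) (Sm N m)
  have b0 := Finset.card_sdiff_add_card (Sm N m) (Bp N 0)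
  have a1 := Finset.card_sdiff_add_card (Bp N 1) (Sm N m)
  have b1 := Finset.card_sdiff_add_card (Sm N m) (Bp N 1)
  rw [Finset.union_comm] at b0 b1
  have c := card_Sm h
  have d := card_Sm_sdiff h
  have e := card_Bp N
  omega

variable (K : Type*) [CommRing K]

/-- The near symbol with index `k`: the block has `2 s + 1` letters, `s = 2 ^ k - 1`. -/
def q (N k : ℕ) : Finset (Fin N) → K :=
  qs (Sm N (2 ^ (k + 1) - 1)) (Bp N (if k = 0 then 1 else 0)) (2 ^ (k + 1) - 2)

theorem sdiff_odd {N k : ℕ} (h : 2 ^ (k + 1) ≤ N) :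
    Odd (Sm N (2 ^ (k + 1) - 1) \ Bp N (if k = 0 then 1 else 0)).card := by
  have h1 := card_Sm_sdiff (N := N) (m := 2 ^ (k + 1) - 1) (by omega)
  rcases Nat.eq_zero_or_pos k with rfl | hk
  · simp only [if_true]
    rw [h1.2]
    norm_num
  · rw [if_neg (by omega), h1.1]
    obtain ⟨t, rfl⟩ : ∃ t, k = t + 1 := ⟨k - 1, by omega⟩
    have : 2 ^ (t + 1 + 1) = 4 * 2 ^ t := by ring
    rw [this]
    have hp : 0 < 2 ^ t := by positivity
    refine ⟨2 ^ t - 1, ?_⟩
    omega

/-- **The values of the near symbols** on the non-crossing matchings. -/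
theorem tsum_q [CharP K 2] {N k : ℕ} (h : 2 ^ (k + 1) ≤ N) {l : List (Fin N × Fin N)}
    (hl : NC Finset.univ l) :
    tsum (q K N k) l ∅ = val K (Sm N (2 ^ (k + 1) - 1)) l := by
  have hp : 2 ≤ 2 ^ (k + 1) := by
    have : 0 < 2 ^ k := by positivity
    rw [pow_succ]; omega
  refine tsum_qs_eq ?_ (sdiff_odd h) hl.good.1 ?_
  · rw [card_Sm (by omega)]; omega
  · intro p hp
    have := hl.val_ne p hp
    simp only [Bp, Finset.mem_filter, Finset.mem_univ, true_and]
    split_ifs <;> omega

/-- **The Gamma values of the near symbols** form a unitriangular matrix. -/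
theorem sum_q [CharP K 2] {N k l : ℕ} (h : 2 ^ (k + 1) ≤ N) (hN : N % 4 = 2) (hlk : l ≤ k) :
    ∑ T ∈ (Finset.univ : Finset (Fin N)).powersetCard (2 ^ (l + 1) - 1), q K N k T =
      if l = k then 1 else 0 := by
  have hp : 0 < 2 ^ k := by positivity
  have hpk : 2 ^ (k + 1) = 2 * 2 ^ k := by ring
  unfold q
  rw [sum_qs (Finset.subset_univ _) (Finset.subset_univ _)]
  rcases Nat.lt_or_ge l k with hlt | hge
  · have : 2 ^ (l + 1) ≤ 2 ^ k := Nat.pow_le_pow_right (by norm_num) hlt
    have hl0 : 0 < 2 ^ l := by positivity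
    have hpl : 2 ^ (l + 1) = 2 * 2 ^ l := by ring
    rw [if_neg (by omega), if_neg (by omega)]
  · obtain rfl : l = k := le_antisymm hlk hge
    rw [if_pos (by omega), if_pos rfl, card_Sm (by omega)]
    have e1 : 2 ^ (l + 1) - 1 - (2 ^ (l + 1) - 2) = 1 := by omega
    have e2 : (2 ^ (l + 1) - 1).choose (2 ^ (l + 1) - 2) = 2 ^ (l + 1) - 1 := by
      have : 2 ^ (l + 1) - 1 = (2 ^ (l + 1) - 2) + 1 := by omega
      rw [this, Nat.choose_succ_self_right]
    rw [e1, e2, Nat.choose_one_right]
    have h1 := card_Bp_sdiff (N := N) (m := 2 ^ (l + 1) - 1) (by omega)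
    have key : Odd ((2 ^ (l + 1) - 1) *
        (Bp N (if l = 0 then 1 else 0) \ Sm N (2 ^ (l + 1) - 1)).card) := by
      refine Odd.mul ⟨2 ^ l - 1, by omega⟩ ?_
      rcases Nat.eq_zero_or_pos l with rfl | hl
      · simp only [if_true]
        rw [h1.2]
        refine ⟨N / 4, ?_⟩
        norm_num
        omega
      · rw [if_neg (by omega), h1.1]
        obtain ⟨t, rfl⟩ : ∃ t, l = t + 1 := ⟨l - 1, by omega⟩
        have : 2 ^ (t + 1 + 1) = 4 * 2 ^ t := by ring
        have hpt : 0 < 2 ^ t := by positivity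
        rw [this] at h ⊢
        refine ⟨N / 4 - 2 ^ t, ?_⟩
        omega
    obtain ⟨t, ht⟩ := key
    rw [ht]
    push_cast
    have h3 : (2 : K) = 0 := CharTwo.two_eq_zero
    rw [h3]
    ring

end D81877G
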