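import Pool.Agent.Lib.MP_d81877_alZF.Form

/-!
The commutative ring generated by the operators `f x`, `d x`, the block operators, and the plain
contraction.
-/

namespace D81877G

open D81877ZF Finset

set_option linter.unusedSectionVars false

variable {ι : Type*} [DecidableEq ι] {K : Type*} [Field K]

/-- The generators. -/
def gens (ι : Type*) [DecidableEq ι] (K : Type*) [Field K] : Set (Module.End K (Z ι K)) :=
  Set.range f ∪ Set.range d

theorem gens_comm : ∀ a ∈ gens ι K, ∀ b ∈ gens ι K, a * b = b * a := by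
  rintro _ (⟨x, rfl⟩ | ⟨x, rfl⟩) _ (⟨y, rfl⟩ | ⟨y, rfl⟩)
  · exact (f_comm x y).eq
  · exact (f_d_comm x y).eq
  · exact (f_d_comm y x).eq.symm
  · exact (d_comm x y).eq

/-- The ring generated by the `f x` and the `d x`. -/
abbrev AA (ι : Type*) [DecidableEq ι] (K : Type*) [Field K] := Algebra.adjoin K (gens ι K)

theorem AA_comm (a b : AA ι K) : a * b = b * a :=
  (Algebra.isMulCommutative_adjoin K (gens_comm (ι := ι) (K := K))).is_comm.comm a b

instance : CommRing (AA ι K) :=
  { (inferInstance : Ring (AA ι K)) with mul_comm := AA_comm }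

/-- `f x` as an element of the ring -/
def fA (K : Type*) [Field K] (x : ι) : AA ι K :=
  ⟨f x, Algebra.subset_adjoin (Or.inl ⟨x, rfl⟩)⟩

/-- `d x` as an element of the ring -/
def dA (K : Type*) [Field K] (x : ι) : AA ι K :=
  ⟨d x, Algebra.subset_adjoin (Or.inr ⟨x, rfl⟩)⟩

theorem fA_sq (x : ι) : fA K x * fA K x = 0 := Subtype.ext (f_sq x)

theorem dA_sq (x : ι) : dA K x * dA K x = 0 := Subtype.ext (d_sq x)

theorem two_AA [CharP K 2] : (2 : AA ι K) = 0 := by
  have h : (2 : K) = 0 := CharTwo.two_eq_zero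
  have := congrArg (algebraMap K (AA ι K)) h
  rwa [map_zero, map_ofNat] at this

/-- The operator `T x y`. -/
def TT (K : Type*) [Field K] (x y : ι) : AA ι K :=
  (fA K x + fA K y) * (dA K x + dA K y) + fA K x * fA K y * (dA K x * dA K y)

/-- product over `S` -/
def Pr (a : ι → AA ι K) (S : Finset ι) : AA ι K := ∏ x ∈ S, a x

/-- the elementary symmetric polynomial of degree `|S| - 1` -/
def Em (a : ι → AA ι K) (S : Finset ι) : AA ι K := ∑ c ∈ S, ∏ x ∈ S.erase c, a x

theorem mul_Pr {a : ι → AA ι K} (ha : ∀ x, a x * a x = 0) {S : Finset ι} {x : ι} (hx : x ∈ S) :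
    a x * Pr a S = 0 := by
  rw [Pr, ← mul_prod_erase S a hx, ← mul_assoc, ha, zero_mul]

theorem Pr_insert (a : ι → AA ι K) {S : Finset ι} {x : ι} (hx : x ∉ S) :
    Pr a (insert x S) = a x * Pr a S := prod_insert hx

theorem mul_Em {a : ι → AA ι K} (ha : ∀ x, a x * a x = 0) {S : Finset ι} {x : ι} (hx : x ∈ S) :
    a x * Em a S = Pr a S := by
  rw [Em, mul_sum, sum_eq_single_of_mem x hx, mul_prod_erase S a hx, Pr]
  intro c _ hcx
  exact mul_Pr (S := S.erase c) ha (mem_erase.2 ⟨hcx.symm, hx⟩)

theorem Em_insert (a : ι → AA ι K) {S : Finset ι} {x : ι} (hx : x ∉ S) :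
    Em a (insert x S) = Pr a S + a x * Em a S := by
  rw [Em, sum_insert hx, erase_insert hx, Pr, Em, mul_sum]
  congr 1
  refine sum_congr rfl fun c hc => ?_
  have : x ≠ c := fun h => hx (h ▸ hc)
  rw [erase_insert_of_ne this, prod_insert (by simp [hx])]

/-- The block operator. -/
def TS (K : Type*) [Field K] (S : Finset ι) : AA ι K :=
  Em (fA K) S * Em (dA K) S + if Even S.card then Pr (fA K) S * Pr (dA K) S else 0

theorem TS_empty : TS K (∅ : Finset ι) = 1 := by simp [TS, Em, Pr]

theorem TS_singleton (x : ι) : TS K ({x} : Finset ι) = 1 := by simp [TS, Em]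

/-- The block operator of an odd block. -/
theorem TS_odd {S : Finset ι} (h : Odd S.card) : TS K S = Em (fA K) S * Em (dA K) S := by
  rw [TS, if_neg (Nat.not_even_iff_odd.2 h), add_zero]

/-- Adding a site to the block. -/
theorem TS_insert [CharP K 2] {S : Finset ι} {r x : ι} (hr : r ∈ S) (hx : x ∉ S) :
    TS K (insert x S) = TT K r x * TS K S := by
  have f1 := mul_Em (a := fA K) fA_sq hr
  have f2 := mul_Pr (a := fA K) fA_sq hr
  have d1 := mul_Em (a := dA K) dA_sq hr
  have d2 := mul_Pr (a := dA K) dA_sq hr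
  rw [TS, TS, Em_insert _ hx, Em_insert _ hx, Pr_insert _ hx, Pr_insert _ hx,
    card_insert_of_notMem hx, TT]
  generalize Em (fA K) S = ef at *
  generalize Em (dA K) S = ed at *
  generalize Pr (fA K) S = pf at *
  generalize Pr (dA K) S = pd at *
  have h2 := two_AA (ι := ι) (K := K)
  have fx := fA_sq (K := K) x
  have dx := dA_sq (K := K) x
  generalize fA K x = fx' at *
  generalize fA K r = fr at *
  generalize dA K x = dx' at *
  generalize dA K r = dr at *
  by_cases he : Even S.card
  · have ho : ¬ Even (S.card + 1) := by rw [Nat.even_add_one]; simpa using he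
    rw [if_pos he, if_neg ho]
    subst f1
    subst d1
    have e1 : fr * fr * ef = 0 := by rw [← mul_assoc] at f2; exact f2
    have e2 : dr * dr * ed = 0 := by rw [← mul_assoc] at d2; exact d2
    linear_combination (-(fr * ef * dr * ed * fx' * dx')) * h2 + (-fr * ef * fx') * e2 +
      (-fx' * dr ^ 2 * ed * dx' - dr * ed * dx' - dr ^ 2 * ed) * e1
  · have ho : Even (S.card + 1) := by rw [Nat.even_add_one]; exact he
    rw [if_neg he, if_pos ho]
    subst f1
    subst d1
    ring

end D81877G
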