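import Pool.Agent.Lib.MP_d81877_alG.Par
import Pool.Agent.Lib.MP_d81877_alC.Dimer

/-!
The triangular system: the values of the functionals `Gamma` at the near elements, and the change
of the elements which makes the pairing the identity.
-/

namespace D81877G

open D81877C

set_option linter.unusedSectionVars false

/-- The value of a functional `Gamma` at a function which on the non-crossing matchings is given by
the block of `2 ^ (k + 1) - 1` letters. -/
theorem gamma_value {K : Type*} [CommRing K] [CharP K 2] {N k l : ℕ} (h : 2 ^ (k + 1) ≤ N)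
    (hN : N % 4 = 2) (hlk : l ≤ k) (c : List (Fin N × Fin N) →₀ K)
    (hc : ∀ (n : List (Fin N × Fin N) → K) (q : Finset (Fin N) → K),
      IsSymbol Finset.univ (2 ^ (l + 1) - 1) n q → (c.sum fun l x => x * n l) =
        ∑ I ∈ (Finset.univ : Finset (Fin N)).powersetCard (2 ^ (l + 1) - 1), q I)
    (n : List (Fin N × Fin N) → K) (hrel : Rel Finset.univ (2 ^ (l + 1) - 1) n)
    (hval : ∀ m, NC Finset.univ m → m.length = 2 ^ (l + 1) - 1 →
      n m = val K (Sm N (2 ^ (k + 1) - 1)) m) :
    (c.sum fun l x => x * n l) = if l = k then 1 else 0 := by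
  have hs : IsSymbol Finset.univ (2 ^ (l + 1) - 1) n (q K N k) :=
    isSymbol_of_nc hrel fun m hm hmj => by rw [hval m hm hmj, tsum_q K h hm]
  rw [hc n _ hs, sum_q K h hN hlk]

/-- From a unitriangular pairing to the identity pairing. -/
theorem exists_dual {K T : Type*} [Field K] [AddCommGroup T] [Module K T] {r : ℕ}
    (γ : Fin r → T →ₗ[K] K) (R : Fin r → T) (W : Submodule K T) (hR : ∀ k, R k ∈ W)
    (htri : ∀ l k : Fin r, l ≤ k → γ l (R k) = if l = k then 1 else 0) :
    ∃ R' : Fin r → T, (∀ k, R' k ∈ W) ∧ ∀ l k, γ l (R' k) = if l = k then 1 else 0 := by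
  classical
  let A : Matrix (Fin r) (Fin r) K := fun l k => γ l (R k)
  have hA : A.BlockTriangular OrderDual.toDual := by
    intro l k hlk
    have hlk' : l < k := by simpa using hlk
    have := htri l k hlk'.le
    rw [if_neg hlk'.ne] at this
    exact this
  have hdet : A.det = 1 := by
    rw [Matrix.det_of_isLowerTriangular A hA]
    refine Finset.prod_eq_one fun i _ => ?_
    have := htri i i le_rfl
    rw [if_pos rfl] at this
    exact this
  have hu : IsUnit A.det := by rw [hdet]; exact isUnit_one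
  refine ⟨fun k => ∑ m, A⁻¹ m k • R m, fun k => ?_, fun l k => ?_⟩
  · exact Submodule.sum_mem _ fun m _ => Submodule.smul_mem _ _ (hR m)
  · rw [map_sum]
    simp only [map_smul, smul_eq_mul]
    have := congrFun (congrFun (Matrix.mul_nonsing_inv A hu) l) k
    rw [Matrix.mul_apply, Matrix.one_apply] at this
    rw [← this]
    refine Finset.sum_congr rfl fun m _ => ?_
    rw [mul_comm]

/-- The number of sites: `N + 2` is divisible by `2 ^ (r + 2)` and large. -/
def NN (r : ℕ) : ℕ := 2 ^ (r + 3) - 2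

theorem NN_spec (r l : ℕ) (hl : l < r) :
    (Finset.univ : Finset (Fin (NN r))).card + 2 = 2 ^ (l + 1) * ((2 ^ (r + 2 - l) - 1) + 1) := by
  rw [Finset.card_univ, Fintype.card_fin, NN]
  have h1 : 2 ≤ 2 ^ (r + 3) := by
    calc 2 = 2 ^ 1 := rfl
      _ ≤ 2 ^ (r + 3) := Nat.pow_le_pow_right (by norm_num) (by omega)
  have h2 : 0 < 2 ^ (r + 2 - l) := by positivity
  have h3 : 2 ^ (l + 1) * 2 ^ (r + 2 - l) = 2 ^ (r + 3) := by
    rw [← pow_add]; congr 1; omega
  have h4 : 2 ^ (r + 2 - l) - 1 + 1 = 2 ^ (r + 2 - l) := by omega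
  rw [h4, h3]
  omega

theorem NN_mod (r : ℕ) : NN r % 4 = 2 := by
  unfold NN
  have : 2 ^ (r + 3) = 8 * 2 ^ r := by ring
  have h : 0 < 2 ^ r := by positivity
  omega

theorem NN_ge (r k : ℕ) (hk : k < r) : 2 ^ (k + 1) ≤ NN r := by
  unfold NN
  have h1 : 2 ^ (k + 1) ≤ 2 ^ r := Nat.pow_le_pow_right (by norm_num) hk
  have : 2 ^ (r + 3) = 8 * 2 ^ r := by ring
  have h : 0 < 2 ^ r := by positivity
  omega

/-- `b = 2 ^ r - 1`, and `4 b + 6 ≤ N`. -/
theorem NN_large (r : ℕ) : 4 * (2 ^ r - 1) + 6 ≤ NN r := by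
  unfold NN
  have : 2 ^ (r + 3) = 8 * 2 ^ r := by ring
  have h : 0 < 2 ^ r := by positivity
  omega

/-- The functionals `Gamma` for `N = NN r`. -/
theorem exists_gammas (K : Type*) [CommRing K] [CharP K 2] (r : ℕ) :
    ∃ c : Fin r → (List (Fin (NN r) × Fin (NN r)) →₀ K),
      (∀ j, ∀ l ∈ (c j).support, Good Finset.univ l ∧ l.length = 2 ^ (j.val + 1) - 1) ∧
      ∀ (j : Fin r) (n : List (Fin (NN r) × Fin (NN r)) → K) (q : Finset (Fin (NN r)) → K),
        IsSymbol Finset.univ (2 ^ (j.val + 1) - 1) n q → ((c j).sum fun l x => x * n l) =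
          ∑ I ∈ (Finset.univ : Finset (Fin (NN r))).powersetCard (2 ^ (j.val + 1) - 1), q I := by
  have h := fun j : Fin r =>
    exists_Gamma_pow K (V := (Finset.univ : Finset (Fin (NN r)))) (k := j.val + 1)
      (M := 2 ^ (r + 2 - j.val) - 1) (by omega) (NN_spec r j.val j.2)
  choose c h1 h2 using h
  exact ⟨c, h1, h2⟩

end D81877G
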