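import Pool.Agent.Lib.MP_d81877_alG.Ring
import Pool.Agent.Lib.MP_d81877_alG.Count

/-!
The plain contraction of two sites, and its values at `TS S β` for the non-crossing matchings.
-/

namespace D81877G

open D81877ZF D81877C Finset

set_option linter.unusedSectionVars false

variable {ι : Type*} [DecidableEq ι] {K : Type*} [Field K]

/-- The contraction of the sites `x` and `y`. -/
def ct (x y : ι) : Module.End K (Z ι K) where
  toFun u := fun A B => if x ∈ A ∨ y ∈ A ∨ x ∈ B ∨ y ∈ B then 0 else
    u (insert x A) (insert x B) + u (insert y A) (insert y B) + u (insert x (insert y A)) B +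
      u (insert x A) (insert y B) + u (insert y A) (insert x B)
  map_add' u v := by
    funext A B
    simp only [Pi.add_apply]
    split_ifs
    · simp
    · ring
  map_smul' c u := by
    funext A B
    simp only [Pi.smul_apply, smul_eq_mul, RingHom.id_apply]
    split_ifs
    · simp
    · ring

theorem ct_apply (x y : ι) (u : Z ι K) (A B : Finset ι) :
    ct x y u A B = if x ∈ A ∨ y ∈ A ∨ x ∈ B ∨ y ∈ B then 0 else
    u (insert x A) (insert x B) + u (insert y A) (insert y B) + u (insert x (insert y A)) B +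
      u (insert x A) (insert y B) + u (insert y A) (insert x B) := rfl

theorem ct_symm (x y : ι) (u : Z ι K) : ct x y u = ct y x u := by
  funext A B
  rw [ct_apply, ct_apply, insert_comm x y A]
  by_cases h : x ∈ A ∨ y ∈ A ∨ x ∈ B ∨ y ∈ B
  · rw [if_pos h, if_pos (by tauto)]
  · rw [if_neg h, if_neg (by tauto)]
    ring

theorem ct_f {x y z : ι} (hx : z ≠ x) (hy : z ≠ y) : Commute (ct x y : Module.End K (Z ι K)) (f z) := by
  ext u A B
  simp only [Module.End.mul_apply, ct_apply, f_apply, mem_insert, mem_erase, hx, hy, false_or,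
    Ne.symm hx, Ne.symm hy, ne_eq, not_false_eq_true, true_and]
  by_cases hz : z ∈ B
  · simp only [hz, if_true, erase_insert_of_ne (Ne.symm hx), erase_insert_of_ne (Ne.symm hy)]
  · simp [hz]

theorem ct_d {x y z : ι} (hx : z ≠ x) (hy : z ≠ y) : Commute (ct x y : Module.End K (Z ι K)) (d z) := by
  ext u A B
  simp only [Module.End.mul_apply, ct_apply, d_apply, mem_insert, hx, hy, false_or,
    Ne.symm hx, Ne.symm hy]
  by_cases hz : z ∈ A
  · simp [hz]
  · simp only [hz, if_false]
    rw [insert_comm z x A, insert_comm z y A, insert_comm z x (insert y A), insert_comm z y A]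

/-- Is the operator commuting with the contraction? -/
noncomputable def CC (x y : ι) : Subalgebra K (AA ι K) :=
  (Subalgebra.centralizer K {(ct x y : Module.End K (Z ι K))}).comap (AA ι K).val

theorem mem_CC {x y : ι} {a : AA ι K} :
    a ∈ CC x y ↔ (ct x y : Module.End K (Z ι K)) * a.val = a.val * ct x y := by
  unfold CC
  rw [Subalgebra.mem_comap, Subalgebra.mem_centralizer_iff]
  simp

theorem fA_mem {x y z : ι} (hx : z ≠ x) (hy : z ≠ y) : fA K z ∈ CC x y :=
  mem_CC.2 (ct_f hx hy).eq

theorem dA_mem {x y z : ι} (hx : z ≠ x) (hy : z ≠ y) : dA K z ∈ CC x y :=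
  mem_CC.2 (ct_d hx hy).eq

theorem TS_mem {x y : ι} {S : Finset ι} (hx : x ∉ S) (hy : y ∉ S) : TS K S ∈ CC x y := by
  have h : ∀ z ∈ S, z ≠ x ∧ z ≠ y := fun z hz =>
    ⟨fun h => hx (h ▸ hz), fun h => hy (h ▸ hz)⟩
  unfold TS Em Pr
  refine add_mem (mul_mem ?_ ?_) ?_
  · exact sum_mem fun c _ => prod_mem fun z hz =>
      fA_mem (h z (mem_of_mem_erase hz)).1 (h z (mem_of_mem_erase hz)).2
  · exact sum_mem fun c _ => prod_mem fun z hz =>
      dA_mem (h z (mem_of_mem_erase hz)).1 (h z (mem_of_mem_erase hz)).2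
  · split_ifs
    · exact mul_mem (prod_mem fun z hz => fA_mem (h z hz).1 (h z hz).2)
        (prod_mem fun z hz => dA_mem (h z hz).1 (h z hz).2)
    · exact zero_mem _

theorem ct_of_mem {x y : ι} {a : AA ι K} (ha : a ∈ CC x y) (u : Z ι K) :
    ct x y (a.val u) = a.val (ct x y u) := by
  have := congrArg (fun m : Module.End K (Z ι K) => m u) (mem_CC.1 ha)
  simpa [Module.End.mul_apply] using this

theorem mul_val_apply (a b : AA ι K) (u : Z ι K) : (a * b).val u = a.val (b.val u) := rfl

theorem add_val_apply (a b : AA ι K) (u : Z ι K) : (a + b).val u = a.val u + b.val u := rfl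

/-- The basic element. -/
noncomputable def β (K : Type*) [Field K] (V : Finset ι) (b : ℕ) : Z ι K := fun A B =>
  if A ⊆ V ∧ A.card = 2 * b ∧ ∃ x ∈ V, x ∉ A ∧ B = {x} then 1 else 0

theorem β_apply (V : Finset ι) (b : ℕ) (A B : Finset ι) :
    β K V b A B = if A ⊆ V ∧ A.card = 2 * b ∧ ∃ x ∈ V, x ∉ A ∧ B = {x} then 1 else 0 := rfl

theorem β_single (V : Finset ι) (b : ℕ) (A : Finset ι) (x : ι) :
    β K V b A {x} = if A ⊆ V ∧ A.card = 2 * b ∧ x ∈ V ∧ x ∉ A then 1 else 0 := by
  rw [β_apply]
  congr 1
  simp only [singleton_inj, eq_iff_iff]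
  constructor
  · rintro ⟨h1, h2, y, h3, h4, rfl⟩; exact ⟨h1, h2, h3, h4⟩
  · rintro ⟨h1, h2, h3, h4⟩; exact ⟨h1, h2, x, h3, h4, rfl⟩

theorem β_of_card_ne {V : Finset ι} {b : ℕ} {A B : Finset ι} (hB : B.card ≠ 1) :
    β K V b A B = 0 := by
  rw [β_apply, if_neg]
  rintro ⟨_, _, x, _, _, rfl⟩
  exact hB (card_singleton x)

theorem β_two {x y : ι} (hxy : x ≠ y) {V : Finset ι} (hx : x ∈ V) (hy : y ∈ V) (b : ℕ)
    {A B : Finset ι} (h1 : x ∉ A) (h2 : y ∉ A) (h3 : x ∉ B) (h4 : y ∉ B) :
    β K V (b + 1) (insert x (insert y A)) B = β K ((V.erase x).erase y) b A B := by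
  rw [β_apply, β_apply]
  congr 1
  have c1 : (insert x (insert y A)).card = A.card + 2 := by
    rw [card_insert_of_notMem (by simp [hxy, h1]), card_insert_of_notMem h2]
  rw [c1]
  simp only [eq_iff_iff, insert_subset_iff, hx, hy, true_and, mem_insert, not_or, mem_erase]
  constructor
  · rintro ⟨a1, a2, z, a3, ⟨a4, a5, a6⟩, rfl⟩
    refine ⟨?_, by omega, z, ⟨a5, a4, a3⟩, a6, rfl⟩
    intro w hw
    simp only [mem_erase]
    exact ⟨fun h => h2 (h ▸ hw), fun h => h1 (h ▸ hw), a1 hw⟩
  · rintro ⟨a1, a2, z, ⟨a3, a4, a5⟩, a6, rfl⟩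
    refine ⟨?_, by omega, z, a5, ⟨a4, a3, a6⟩, rfl⟩
    exact a1.trans ((erase_subset _ _).trans (erase_subset _ _))

theorem β_swap {x y : ι} {V : Finset ι} (hx : x ∈ V) (hy : y ∈ V) (b : ℕ)
    {A B : Finset ι} (h1 : x ∉ A) (h2 : y ∉ A) (h3 : x ∉ B) (h4 : y ∉ B) :
    β K V b (insert x A) B = β K V b (insert y A) B := by
  rw [β_apply, β_apply]
  congr 1
  rw [card_insert_of_notMem h1, card_insert_of_notMem h2]
  simp only [eq_iff_iff, insert_subset_iff, hx, hy, true_and, mem_insert, not_or]
  constructor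
  · rintro ⟨a1, a2, z, a3, ⟨a4, a5⟩, rfl⟩
    refine ⟨a1, a2, z, a3, ⟨?_, a5⟩, rfl⟩
    intro h
    exact h4 (by simp [h])
  · rintro ⟨a1, a2, z, a3, ⟨a4, a5⟩, rfl⟩
    refine ⟨a1, a2, z, a3, ⟨?_, a5⟩, rfl⟩
    intro h
    exact h3 (by simp [h])

theorem β_off {x y : ι} {V : Finset ι} (b : ℕ) {A B : Finset ι}
    (h : x ∈ A ∨ y ∈ A ∨ x ∈ B ∨ y ∈ B) : β K ((V.erase x).erase y) b A B = 0 := by
  rw [β_apply, if_neg]
  rintro ⟨h1, _, z, hz, _, rfl⟩
  simp only [mem_singleton] at h
  simp only [mem_erase] at hz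
  rcases h with h | h | h | h
  · have := h1 h; simp at this
  · have := h1 h; simp at this
  · exact hz.2.1 h.symm
  · exact hz.1 h.symm

theorem ct_fx {x y : ι} (hxy : x ≠ y) (u : Z ι K) (A B : Finset ι) : ct x y (f x u) A B =
    if x ∈ A ∨ y ∈ A ∨ x ∈ B ∨ y ∈ B then 0 else u (insert x A) B + u (insert y A) B := by
  rw [ct_apply]
  split_ifs with h
  · rfl
  · simp only [not_or] at h
    obtain ⟨h1, h2, h3, h4⟩ := h
    simp only [f_apply, mem_insert, h3, hxy, or_false, or_self, if_true, if_false,
      erase_insert h3, add_zero]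

section char_two

variable [CharP K 2]

theorem K_two : (2 : K) = 0 := CharTwo.two_eq_zero

/-- The contraction kills the symmetric functions. -/
theorem ct_ff {x y : ι} (hxy : x ≠ y) (u : Z ι K) : ct x y (f x u + f y u) = 0 := by
  funext A B
  rw [ct_apply]
  split_ifs with h
  · simp
  · simp only [not_or] at h
    obtain ⟨h1, h2, h3, h4⟩ := h
    simp only [Pi.add_apply, f_apply, mem_insert, h3, h4, hxy, hxy.symm,
      or_false, or_self, if_true, if_false, erase_insert h3, erase_insert h4,
      Pi.zero_apply]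
    linear_combination (u (insert x A) B + u (insert y A) B) * K_two (K := K)

theorem ct_ff' {x y : ι} (hxy : x ≠ y) (u : Z ι K) : ct x y (f x (f y u)) = 0 := by
  funext A B
  rw [ct_apply]
  split_ifs with h
  · simp
  · simp only [not_or] at h
    obtain ⟨h1, h2, h3, h4⟩ := h
    simp [f_apply, mem_insert, h3, h4, hxy]

theorem ct_TT {x y : ι} (hxy : x ≠ y) (u : Z ι K) : ct x y ((TT K x y).val u) = 0 := by
  have e : (TT K x y).val u =
      (f x (d x u + d y u) + f y (d x u + d y u)) + f x (f y (d x (d y u))) := rfl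
  rw [e, map_add, ct_ff hxy, ct_ff' hxy, add_zero]

theorem ct_β {x y : ι} (hxy : x ≠ y) {V : Finset ι} (hx : x ∈ V) (hy : y ∈ V) (b : ℕ) :
    ct x y (β K V (b + 1)) = β K ((V.erase x).erase y) b := by
  funext A B
  rw [ct_apply]
  split_ifs with h
  · rw [β_off b h]
  · simp only [not_or] at h
    obtain ⟨h1, h2, h3, h4⟩ := h
    rw [β_two hxy hx hy b h1 h2 h3 h4]
    by_cases hB : B = ∅
    · subst hB
      have i1 : (insert x (∅ : Finset ι)) = {x} := rfl
      have i2 : (insert y (∅ : Finset ι)) = {y} := rfl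
      rw [i1, i2, β_single, β_single, β_single, β_single]
      have e : (insert x A ⊆ V ∧ (insert x A).card = 2 * (b + 1) ∧ y ∈ V ∧ y ∉ insert x A) ↔
          (insert y A ⊆ V ∧ (insert y A).card = 2 * (b + 1) ∧ x ∈ V ∧ x ∉ insert y A) := by
        simp only [card_insert_of_notMem h1, card_insert_of_notMem h2, insert_subset_iff, hx, hy,
          mem_insert, h1, h2, hxy, hxy.symm, true_and]
      simp only [e, mem_insert_self, not_true_eq_false, and_false, if_false, zero_add]
      linear_combination (if insert y A ⊆ V ∧ (insert y A).card = 2 * (b + 1) ∧ x ∈ V ∧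
        x ∉ insert y A then (1 : K) else 0) * K_two (K := K)
    · rw [β_of_card_ne (A := insert x A) (B := insert x B),
        β_of_card_ne (A := insert y A) (B := insert y B),
        β_of_card_ne (A := insert x A) (B := insert y B),
        β_of_card_ne (A := insert y A) (B := insert x B)]
      · simp only [zero_add, add_zero]
      all_goals
        intro h
        apply hB
        rw [card_insert_of_notMem (by assumption)] at h
        exact card_eq_zero.1 (by omega)

theorem ct_TT_β {x y z : ι} (hxy : x ≠ y) (hzx : z ≠ x) (hzy : z ≠ y) {V : Finset ι} (hx : x ∈ V)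
    (hy : y ∈ V) (b : ℕ) :
    ct x y ((TT K x z).val (β K V (b + 1))) = β K ((V.erase x).erase y) b := by
  set w := β K V (b + 1) with hw
  have e : (TT K x z).val w =
      f x (d x w + d z w) + f z (d x w) + f z (d z w) + f z (f x (d x (d z w))) := by
    have e1 : (TT K x z).val w =
      (f x (d x w + d z w) + f z (d x w + d z w)) + f x (f z (d x (d z w))) := rfl
    have e2 : f x (f z (d x (d z w))) = f z (f x (d x (d z w))) :=
      congrArg (fun m : Module.End K (Z ι K) => m (d x (d z w))) (f_comm x z).eq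
    rw [e1, e2, map_add (f z)]
    abel
  have c1 : ∀ u, ct x y (f z u) = f z (ct x y u) := fun u =>
    congrArg (fun m : Module.End K (Z ι K) => m u) (ct_f (K := K) hzx hzy).eq
  have c2 : ∀ u, ct x y (d z u) = d z (ct x y u) := fun u =>
    congrArg (fun m : Module.End K (Z ι K) => m u) (ct_d (K := K) hzx hzy).eq
  rw [e, map_add, map_add, map_add, c1, c1, c1, c2]
  rw [hw, ct_β hxy hx hy b, ← hw]
  have c3 : ct x y (d x w) = 0 := by
    funext A B
    rw [ct_apply]
    split_ifs with h
    · simp
    · simp only [not_or] at h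
      obtain ⟨h1, h2, h3, h4⟩ := h
      simp only [d_apply, mem_insert, hxy, h1, true_or, or_self, if_true, if_false, zero_add,
        add_zero, Pi.zero_apply]
      rw [hw, β_apply, β_apply, if_neg, if_neg, zero_add]
      · rintro ⟨_, _, t, _, h6, h7⟩
        have : x ∈ ({t} : Finset ι) := h7 ▸ mem_insert_self x B
        rw [mem_singleton] at this
        exact h6 (by simp [← this])
      · rintro ⟨_, _, t, _, h6, h7⟩
        have : y ∈ ({t} : Finset ι) := h7 ▸ mem_insert_self y B
        rw [mem_singleton] at this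
        exact h6 (by simp [← this])
  rw [c3, map_zero, add_zero]
  funext A B
  simp only [Pi.add_apply]
  rw [ct_fx hxy, f_apply, f_apply, ct_fx hxy]
  by_cases h : x ∈ A ∨ y ∈ A ∨ x ∈ B ∨ y ∈ B
  · rw [if_pos h, β_off b h, zero_add]
    have h' : x ∈ A ∨ y ∈ A ∨ x ∈ B.erase z ∨ y ∈ B.erase z := by
      simp only [mem_erase]
      have := hzx.symm
      have := hzy.symm
      tauto
    rw [if_pos h']
    have h5 : d z (β K ((V.erase x).erase y) b) A (B.erase z) = 0 := by
      rw [d_apply]
      split_ifs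
      · rfl
      · rw [β_off b]
        simp only [mem_insert]
        tauto
    rw [h5]
    simp
  · rw [if_neg h]
    simp only [not_or] at h
    obtain ⟨h1, h2, h3, h4⟩ := h
    have h5 : x ∉ B.erase z := fun h => h3 (mem_of_mem_erase h)
    have h6 : y ∉ B.erase z := fun h => h4 (mem_of_mem_erase h)
    have h7 : ¬ (x ∈ A ∨ y ∈ A ∨ x ∈ B.erase z ∨ y ∈ B.erase z) := by
      simp only [not_or]; exact ⟨h1, h2, h5, h6⟩
    rw [if_neg h7]
    simp only [Pi.add_apply, d_apply, mem_insert, true_or, if_true, hxy, hzx, hzy,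
      h1, false_or, if_false, zero_add, or_self]
    by_cases hz : z ∈ A
    · simp only [hz, if_true, add_zero, ite_self, zero_add]
      rw [hw, β_two hxy hx hy b h1 h2 h3 h4]
    · simp only [hz, if_false]
      have k1 : w (insert x (insert y A)) B = β K ((V.erase x).erase y) b A B :=
        β_two hxy hx hy b h1 h2 h3 h4
      have k2 : w (insert z (insert x A)) B = w (insert z (insert y A)) B := by
        rw [insert_comm z x, insert_comm z y]
        exact β_swap hx hy (b + 1) (by simp [h1, hzx.symm]) (by simp [h2, hzy.symm]) h3 h4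
      have k3 : w (insert z (insert x (insert y A))) (B.erase z) =
          β K ((V.erase x).erase y) b (insert z A) (B.erase z) := by
        rw [insert_comm z x, insert_comm z y]
        exact β_two hxy hx hy b (by simp [h1, hzx.symm]) (by simp [h2, hzy.symm]) h5 h6
      rw [k1, k2, k3]
      split_ifs
      · linear_combination (w (insert z (insert y A)) B +
          β K ((V.erase x).erase y) b (insert z A) (B.erase z)) * K_two (K := K)
      · linear_combination (w (insert z (insert y A)) B) * K_two (K := K)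

end char_two

end D81877G
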